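import Mathlib
import Pool.Agent.Q288.CTMC.Compare

/-!
# The zero-range process with finitely many particles, and its truncation limit
-/

set_option autoImplicit false
set_option linter.unusedSectionVars false

namespace Q288.ZRP

open MeasureTheory Pool.Agent.W845.CP Filter Q288.Jump
open scoped ENNReal

variable {d : ℕ}

/-- The sites: the points of `ℤ^d`. -/
abbrev Site (d : ℕ) : Type := Fin d → ℤ

/-- The configurations with finitely many particles. -/
abbrev Conf (d : ℕ) : Type := Site d →₀ ℕ

instance instMS : MeasurableSpace (Conf d) := ⊤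
instance instDMS : DiscreteMeasurableSpace (Conf d) := ⟨fun _ => trivial⟩

/-- One particle moves from `x` to `y`. -/
noncomputable def move (η : Conf d) (x y : Site d) : Conf d :=
  η - Finsupp.single x 1 + Finsupp.single y 1

/-- The jump rates out of `η`: an occupied site `x` emits a particle at rate `g (η x)`, and the
particle goes to `x + z`, where `z` has law `p`. -/
noncomputable def rates (g : ℕ → ℝ) (p : PMF (Site d)) (η : Conf d) : Measure (Conf d) :=
  ∑ x ∈ η.support, ENNReal.ofReal (g (η x)) • (p.toMeasure).map (fun z => move η x (x + z))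

open Classical in
/-- The jump kernel: if all rates are zero, there are only dummy jumps (at rate one). -/
noncomputable def jump (g : ℕ → ℝ) (p : PMF (Site d)) (η : Conf d) : Measure (Conf d) :=
  if rates g p η Set.univ = 0 then Measure.dirac η else rates g p η

lemma rates_univ (g : ℕ → ℝ) (p : PMF (Site d)) (η : Conf d) :
    rates g p η Set.univ = ∑ x ∈ η.support, ENNReal.ofReal (g (η x)) := by
  unfold rates
  rw [Measure.finsetSum_apply]
  refine Finset.sum_congr rfl fun x _ => ?_
  rw [Measure.smul_apply, Measure.map_apply (measurable_of_countable _) MeasurableSet.univ]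
  simp

lemma goodJ_jump (g : ℕ → ℝ) (p : PMF (Site d)) : GoodJ (jump g p) := by
  intro η
  unfold jump
  by_cases h : rates g p η Set.univ = 0
  · rw [if_pos h]; simp
  · rw [if_neg h]
    refine ⟨h, ?_⟩
    rw [rates_univ]
    exact ENNReal.sum_ne_top.2 fun x _ => ENNReal.ofReal_ne_top

/-- The law of the zero-range process with rate function `g` and jump law `p` started from the
finite configuration `η`: the law of the sequence `(Y k, T k)`, where `Y k` is the configuration
after `k` jumps and `T k` is the time of the `k`-th jump. The configuration at time `t` is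
`stateAt ω t`, the configuration `Y k` with `T k ≤ t < T (k + 1)`. -/
noncomputable def zrpLaw (g : ℕ → ℝ) (p : PMF (Site d)) (η : Conf d) :
    Measure (ℕ → Conf d × ℝ) :=
  law (jump g p) (goodJ_jump g p) η

/-- The box `[-n, n]^d`. -/
noncomputable def box (d n : ℕ) : Finset (Site d) := Fintype.piFinset fun _ => Finset.Icc (-(n : ℤ)) n

/-- The configuration which agrees with `η` on the box `[-n, n]^d` and vanishes elsewhere. -/
noncomputable def restr (η : Site d → ℕ) (n : ℕ) : Conf d :=
  Finsupp.onFinset (box d n) (fun x => if x ∈ box d n then η x else 0) (by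
    intro x hx
    by_contra hc
    exact hx (if_neg hc))

/-- Finite asymptotic density. -/
def FiniteDensity (η : Site d → ℕ) : Prop :=
  limsup (fun n : ℕ => ((∑ x ∈ box d n, η x : ℕ) : ℝ≥0∞) / (2 * n + 1) ^ d) atTop < ⊤

/-- `Y n`, `n ∈ ℕ`, are zero-range processes on one probability space `(Ω, P)`, the `n`-th one
started from the restriction of `η` to `[-n, n]^d`, and `Y n` is at all times below `Y (n + 1)`. -/
structure MonotoneCoupling (g : ℕ → ℝ) (p : PMF (Site d)) (η : Site d → ℕ)
    {Ω : Type} [MeasurableSpace Ω] (P : Measure Ω) (Y : ℕ → Ω → ℕ → Conf d × ℝ) : Prop where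
  meas : ∀ n, Measurable (Y n)
  law_eq : ∀ n, P.map (Y n) = zrpLaw g p (restr η n)
  mono : ∀ᵐ w ∂P, ∀ n, ∀ t : ℝ, 0 ≤ t → stateAt (Y n w) t ≤ stateAt (Y (n + 1) w) t

/-- The number `lim_n η^n_t(x) ∈ ℕ ∪ {∞}` of particles at the site `x` at time `t`. -/
noncomputable def limitAt (y : ℕ → ℕ → Conf d × ℝ) (t : ℝ) (x : Site d) : ℕ∞ :=
  ⨆ n, (stateAt (y n) t x : ℕ∞)

end Q288.ZRP
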