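import Mathlib
import Pool.Agent.Q288.ZRP.Defs

/-!
# The totally asymmetric nearest-neighbour zero-range process
-/

set_option autoImplicit false
set_option linter.unusedSectionVars false

namespace Q288.ZRP

open MeasureTheory ProbabilityTheory Pool.Agent.W845.CP Filter Topology Set Q288.Jump
open scoped ENNReal

variable {d : ℕ} (g : ℕ → ℝ) (i0 : Fin d)

/-- The unit vector in direction `i0`. -/
def ev (i0 : Fin d) : Site d := Pi.single i0 1

/-- One particle at `x` makes a step `-e`. -/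
noncomputable def mv (η : Conf d) (x : Site d) : Conf d := move η x (x + -(ev i0))

/-- The jump law: always the step `-e`. -/
noncomputable def pp : PMF (Site d) := PMF.pure (-(ev i0))

lemma rates_lint (f : Conf d → ℝ≥0∞) (η : Conf d) :
    ∫⁻ z, f z ∂(rates g (pp i0) η) =
      ∑ x ∈ η.support, ENNReal.ofReal (g (η x)) * f (mv i0 η x) := by
  unfold rates
  rw [lintegral_finsetSum_measure]
  refine Finset.sum_congr rfl fun x _ => ?_
  rw [lintegral_smul_measure, smul_eq_mul]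
  congr 1
  unfold pp
  rw [PMF.toMeasure_pure, lintegral_map (measurable_of_countable _) (measurable_of_countable _),
    lintegral_dirac]
  rfl

lemma ae_jump (Q : Conf d → Prop) (η : Conf d) (h0 : Q η) (h : ∀ x ∈ η.support, Q (mv i0 η x)) :
    ∀ᵐ z ∂(jump g (pp i0) η), Q z := by
  classical
  unfold jump
  split_ifs
  · rw [ae_dirac_eq]; exact h0
  · have h1 := rates_lint g i0 (fun z => if Q z then 0 else 1) η
    have h2 : ∑ x ∈ η.support, ENNReal.ofReal (g (η x)) *
        (if Q (mv i0 η x) then (0 : ℝ≥0∞) else 1) = 0 := by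
      refine Finset.sum_eq_zero fun x hx => ?_
      rw [if_pos (h x hx), mul_zero]
    rw [h2, lintegral_eq_zero_iff (measurable_of_countable _)] at h1
    filter_upwards [h1] with z hz
    by_contra hc
    simp [hc] at hz

/-- total rate -/
noncomputable def rt (η : Conf d) : ℝ≥0∞ := ∑ x ∈ η.support, ENNReal.ofReal (g (η x))

/-- integral of `f` with respect to the rates -/
noncomputable def rf (f : Conf d → ℝ≥0∞) (η : Conf d) : ℝ≥0∞ :=
  ∑ x ∈ η.support, ENNReal.ofReal (g (η x)) * f (mv i0 η x)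

lemma jump_univ (η : Conf d) :
    jump g (pp i0) η Set.univ = if rt g η = 0 then 1 else rt g η := by
  classical
  unfold jump
  rw [rates_univ]
  unfold rt
  split_ifs with h
  · simp
  · exact rates_univ g _ η

lemma jump_lint (f : Conf d → ℝ≥0∞) (η : Conf d) :
    ∫⁻ z, f z ∂(jump g (pp i0) η) = if rt g η = 0 then f η else rf g i0 f η := by
  classical
  unfold jump
  rw [rates_univ]
  unfold rt
  split_ifs with h
  · simp
  · exact rates_lint g i0 f η

lemma rf_zero (f : Conf d → ℝ≥0∞) (η : Conf d) (h : rt g η = 0) : rf g i0 f η = 0 := by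
  unfold rt at h
  unfold rf
  refine Finset.sum_eq_zero fun x hx => ?_
  rw [Finset.sum_eq_zero_iff.1 h x hx, zero_mul]

lemma rt_ne_top (η : Conf d) : rt g η ≠ ⊤ :=
  ENNReal.sum_ne_top.2 fun x _ => ENNReal.ofReal_ne_top

/-- number of particles -/
lemma degree_mv (η : Conf d) (x : Site d) (hx : x ∈ η.support) :
    (mv i0 η x).degree = η.degree := by
  unfold mv move
  have h1 : Finsupp.single x 1 ≤ η := by
    rw [Finsupp.single_le_iff]
    exact Nat.one_le_iff_ne_zero.2 (Finsupp.mem_support_iff.1 hx)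
  have h2 : η.degree = (η - Finsupp.single x 1).degree + (Finsupp.single x 1).degree := by
    rw [← map_add, tsub_add_cancel_of_le h1]
  rw [map_add, h2]
  simp [Finsupp.degree_single]

lemma apply_le_degree (η : Conf d) (x : Site d) : η x ≤ η.degree := by
  exact Finsupp.le_degree x η

lemma card_support_le (η : Conf d) : η.support.card ≤ η.degree := by
  rw [Finsupp.degree_apply, Finset.card_eq_sum_ones]
  exact Finset.sum_le_sum fun x hx => Nat.one_le_iff_ne_zero.2 (Finsupp.mem_support_iff.1 hx)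

lemma rt_le (hg : Monotone g) (N : ℕ) (η : Conf d) (h : η.degree ≤ N) :
    rt g η ≤ ENNReal.ofReal (N * |g N|) := by
  unfold rt
  calc ∑ x ∈ η.support, ENNReal.ofReal (g (η x)) ≤ ∑ x ∈ η.support, ENNReal.ofReal |g N| := by
        refine Finset.sum_le_sum fun x _ => ENNReal.ofReal_le_ofReal ?_
        exact (hg ((apply_le_degree η x).trans h)).trans (le_abs_self _)
    _ = (η.support.card : ℝ≥0∞) * ENNReal.ofReal |g N| := by simp
    _ ≤ (N : ℝ≥0∞) * ENNReal.ofReal |g N| := by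
        gcongr
        exact_mod_cast (card_support_le η).trans h
    _ = _ := by
        rw [ENNReal.ofReal_mul (by positivity), ENNReal.ofReal_natCast]

/-- A bound on the total rates. -/
noncomputable def Lam (N : ℕ) : ℝ := N * |g N| + 1

lemma Lam_pos (N : ℕ) : 0 < Lam g N := by unfold Lam; positivity

lemma jump_univ_le (hg : Monotone g) (N : ℕ) (η : Conf d) (h : η.degree ≤ N) :
    jump g (pp i0) η Set.univ ≤ ENNReal.ofReal (Lam g N) := by
  rw [jump_univ]
  split_ifs
  · rw [← ENNReal.ofReal_one]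
    apply ENNReal.ofReal_le_ofReal
    unfold Lam
    have : 0 ≤ (N : ℝ) * |g N| := by positivity
    linarith
  · refine (rt_le g hg N η h).trans (ENNReal.ofReal_le_ofReal ?_)
    unfold Lam; linarith

lemma inv_degree (N : ℕ) (η : Conf d) (h : η.degree ≤ N) :
    ∀ᵐ z ∂(jump g (pp i0) η), z.degree ≤ N :=
  ae_jump g i0 (fun z => z.degree ≤ N) η h fun x hx => by
    rw [degree_mv i0 η x hx]; exact h

/-- The uniformised one-step operator. -/
noncomputable def PP (N : ℕ) (f : Conf d → ℝ≥0∞) (η : Conf d) : ℝ≥0∞ :=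
  (ENNReal.ofReal (Lam g N))⁻¹ *
    (rf g i0 f η + (ENNReal.ofReal (Lam g N) - rt g η) * f η)

lemma LamE_ne_zero (N : ℕ) : ENNReal.ofReal (Lam g N) ≠ 0 := by
  simpa using Lam_pos g N

lemma rt_le_Lam (hg : Monotone g) (N : ℕ) (η : Conf d) (h : η.degree ≤ N) :
    rt g η ≤ ENNReal.ofReal (Lam g N) := by
  refine (rt_le g hg N η h).trans (ENNReal.ofReal_le_ofReal ?_)
  unfold Lam; linarith

lemma PP_spec (hg : Monotone g) (N : ℕ) (f : Conf d → ℝ≥0∞) (η : Conf d) (h : η.degree ≤ N) :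
    ENNReal.ofReal (Lam g N) * PP g i0 N f η + jump g (pp i0) η Set.univ * f η =
      ∫⁻ z, f z ∂(jump g (pp i0) η) + ENNReal.ofReal (Lam g N) * f η := by
  unfold PP
  rw [← mul_assoc, ENNReal.mul_inv_cancel (LamE_ne_zero g N) ENNReal.ofReal_ne_top, one_mul,
    jump_lint, jump_univ]
  by_cases h0 : rt g η = 0
  · rw [if_pos h0, if_pos h0, rf_zero g i0 f η h0, h0, tsub_zero, zero_add, one_mul, add_comm]
  · rw [if_neg h0, if_neg h0, add_assoc, ← add_mul,
      tsub_add_cancel_of_le (rt_le_Lam g hg N η h)]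

lemma PP_le_one (hg : Monotone g) (N : ℕ) (f : Conf d → ℝ≥0∞) (η : Conf d) (h : η.degree ≤ N)
    (hf : ∀ η : Conf d, η.degree ≤ N → f η ≤ 1) : PP g i0 N f η ≤ 1 := by
  unfold PP
  have h1 : rf g i0 f η ≤ rt g η := by
    unfold rf rt
    refine Finset.sum_le_sum fun x hx => ?_
    calc _ ≤ ENNReal.ofReal (g (η x)) * 1 := by
          gcongr
          apply hf
          rw [degree_mv i0 η x hx]; exact h
      _ = _ := mul_one _
  calc _ ≤ (ENNReal.ofReal (Lam g N))⁻¹ * (rt g η + (ENNReal.ofReal (Lam g N) - rt g η) * 1) := by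
        gcongr
        exact hf η h
    _ = (ENNReal.ofReal (Lam g N))⁻¹ * ENNReal.ofReal (Lam g N) := by
        rw [mul_one, add_tsub_cancel_of_le (rt_le_Lam g hg N η h)]
    _ = 1 := ENNReal.inv_mul_cancel (LamE_ne_zero g N) ENNReal.ofReal_ne_top

/-! ### Monotonicity -/

lemma mv_le (ξ ζ : Conf d) (h : ξ ≤ ζ) (x : Site d) : mv i0 ξ x ≤ mv i0 ζ x := by
  unfold mv move
  gcongr

lemma le_mv (ξ ζ : Conf d) (h : ξ ≤ ζ) (x : Site d) (hx : ξ x < ζ x) : ξ ≤ mv i0 ζ x := by
  classical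
  unfold mv move
  intro y
  simp only [Finsupp.coe_add, Finsupp.coe_tsub, Pi.add_apply, Pi.sub_apply]
  by_cases hy : y = x
  · subst hy
    simp only [Finsupp.single_eq_same]
    omega
  · have h1 : (Finsupp.single x 1 : Conf d) y = 0 := Finsupp.single_eq_of_ne hy
    rw [h1]
    have := h y
    omega

lemma PP_anti (hg : Monotone g) (hg0 : g 0 = 0) (N : ℕ) (f : Conf d → ℝ≥0∞)
    (hf : ∀ ξ ζ : Conf d, ξ ≤ ζ → ζ.degree ≤ N → f ζ ≤ f ξ) (ξ ζ : Conf d) (h : ξ ≤ ζ)
    (hN : ζ.degree ≤ N) : PP g i0 N f ζ ≤ PP g i0 N f ξ := by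
  have hs : ξ.support ⊆ ζ.support := Finsupp.support_mono h
  have hdeg : ξ.degree ≤ N := (Finsupp.degree_mono h).trans hN
  -- rewrite sums for `ξ` over the support of `ζ`
  have e1 : rf g i0 f ξ = ∑ x ∈ ζ.support, ENNReal.ofReal (g (ξ x)) * f (mv i0 ξ x) := by
    unfold rf
    refine Finset.sum_subset hs fun x _ hx => ?_
    rw [Finsupp.notMem_support_iff.1 hx, hg0]; simp
  have e2 : rt g ξ = ∑ x ∈ ζ.support, ENNReal.ofReal (g (ξ x)) := by
    unfold rt
    refine Finset.sum_subset hs fun x _ hx => ?_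
    rw [Finsupp.notMem_support_iff.1 hx, hg0]; simp
  set δ : Site d → ℝ≥0∞ := fun x => ENNReal.ofReal (g (ζ x)) - ENNReal.ofReal (g (ξ x)) with hδ
  have hsum : ∀ x, ENNReal.ofReal (g (ξ x)) + δ x = ENNReal.ofReal (g (ζ x)) := by
    intro x
    exact add_tsub_cancel_of_le (ENNReal.ofReal_le_ofReal (hg (h x)))
  have e3 : rt g ζ = rt g ξ + ∑ x ∈ ζ.support, δ x := by
    rw [e2, ← Finset.sum_add_distrib]
    unfold rt
    exact Finset.sum_congr rfl fun x _ => (hsum x).symm
  have e4 : rf g i0 f ζ ≤ rf g i0 f ξ + (∑ x ∈ ζ.support, δ x) * f ξ := by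
    rw [e1, Finset.sum_mul, ← Finset.sum_add_distrib]
    unfold rf
    refine Finset.sum_le_sum fun x hx => ?_
    rw [← hsum x, add_mul]
    refine add_le_add ?_ ?_
    · gcongr
      apply hf _ _ (mv_le i0 ξ ζ h x)
      rw [degree_mv i0 ζ x hx]; exact hN
    · rcases (h x).lt_or_eq with h1 | h1
      · gcongr
        apply hf _ _ (le_mv i0 ξ ζ h x h1)
        rw [degree_mv i0 ζ x hx]; exact hN
      · simp [hδ, h1]
  have e5 : (ENNReal.ofReal (Lam g N) - rt g ξ) =
      (∑ x ∈ ζ.support, δ x) + (ENNReal.ofReal (Lam g N) - rt g ζ) := by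
    have h1 : ENNReal.ofReal (Lam g N) = rt g ξ + ((∑ x ∈ ζ.support, δ x) +
        (ENNReal.ofReal (Lam g N) - rt g ζ)) := by
      rw [← add_assoc, ← e3, add_tsub_cancel_of_le (rt_le_Lam g hg N ζ hN)]
    rw [ENNReal.sub_eq_of_eq_add_rev (rt_ne_top g ξ) h1]
  unfold PP
  gcongr (ENNReal.ofReal (Lam g N))⁻¹ * ?_
  rw [e5, add_mul, ← add_assoc]
  exact add_le_add e4 (by gcongr; exact hf ξ ζ h hN)

/-- Iterates of the one-step operator. -/
noncomputable def PPn (N : ℕ) (f : Conf d → ℝ≥0∞) : ℕ → Conf d → ℝ≥0∞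
  | 0 => f
  | (k + 1) => PP g i0 N (PPn N f k)

/-- **Attractiveness**: the law at time `t` is monotone in the starting point. -/
theorem attractive (hg : Monotone g) (hg0 : g 0 = 0) (f : Conf d → ℝ≥0∞)
    (hf1 : ∀ η, f η ≤ 1) (hf : ∀ ξ ζ : Conf d, ξ ≤ ζ → f ζ ≤ f ξ) (ξ ζ : Conf d) (h : ξ ≤ ζ)
    {t : ℝ} (ht : 0 ≤ t) :
    pr (jump g (pp i0)) (goodJ_jump g _) ζ t f ≤ pr (jump g (pp i0)) (goodJ_jump g _) ξ t f := by
  set N := ζ.degree with hN
  have h1 : ∀ k, ∀ η : Conf d, η.degree ≤ N → PPn g i0 N f k η ≤ 1 := by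
    intro k
    induction k with
    | zero => intro η _; exact hf1 η
    | succ k ih => intro η hη; exact PP_le_one g i0 hg N _ η hη ih
  have h2 : ∀ k, ∀ ξ ζ : Conf d, ξ ≤ ζ → ζ.degree ≤ N → PPn g i0 N f k ζ ≤ PPn g i0 N f k ξ := by
    intro k
    induction k with
    | zero => intro ξ ζ h _; exact hf ξ ζ h
    | succ k ih => intro ξ ζ h hN; exact PP_anti g i0 hg hg0 N _ ih ξ ζ h hN
  exact compare (jump g (pp i0)) (goodJ_jump g _) ζ ξ (fun η => η.degree ≤ N) le_rfl
    (Finsupp.degree_mono h) (fun η hη => inv_degree g i0 N η hη) (Lam g N) (Lam_pos g N)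
    (fun η hη => jump_univ_le g i0 hg N η hη) (PPn g i0 N f) (PPn g i0 N f) h1 h1
    (fun k η hη => PP_spec g i0 hg N _ η hη) (fun k η hη => PP_spec g i0 hg N _ η hη)
    (fun k => h2 k ξ ζ h le_rfl) ht

end Q288.ZRP
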