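import Mathlib
import Pool.Agent.Q288.ZRP.Basic

/-!
# The process started from one pile
-/

set_option autoImplicit false
set_option linter.unusedSectionVars false

namespace Q288.ZRP

open MeasureTheory ProbabilityTheory Pool.Agent.W845.CP Filter Topology Set Q288.Jump
open scoped ENNReal

variable {d : ℕ} (g : ℕ → ℝ) (i0 : Fin d)

/-! ### Translation invariance -/

/-- Translation of a configuration. -/
noncomputable def sh (c : Site d) (η : Conf d) : Conf d :=
  Finsupp.equivMapDomain (Equiv.addRight c) η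

lemma sh_apply (c : Site d) (η : Conf d) (x : Site d) : sh c η x = η (x - c) := by
  unfold sh
  rw [Finsupp.equivMapDomain_apply]
  rfl

lemma sh_mv (c : Site d) (η : Conf d) (x : Site d) : mv i0 (sh c η) (x + c) = sh c (mv i0 η x) := by
  classical
  ext y
  unfold mv move
  simp only [Finsupp.coe_add, Finsupp.coe_tsub, Pi.add_apply, Pi.sub_apply, sh_apply,
    Finsupp.single_apply]
  have h1 : (x + c = y) ↔ (x = y - c) := ⟨fun h => by rw [← h]; abel, fun h => by rw [h]; abel⟩
  have h2 : (x + c + -ev i0 = y) ↔ (x + -ev i0 = y - c) :=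
    ⟨fun h => by rw [← h]; abel, fun h => by
      have : y = (x + -ev i0) + c := by rw [h]; abel
      rw [this]; abel⟩
  simp only [h1, h2]

lemma sum_sh (c : Site d) (η : Conf d) (F : Site d → ℝ≥0∞) :
    ∑ x ∈ (sh c η).support, F x = ∑ x ∈ η.support, F (x + c) := by
  refine Finset.sum_bij' (fun x _ => x - c) (fun x _ => x + c) ?_ ?_ ?_ ?_ ?_
  · intro x hx
    rw [Finsupp.mem_support_iff, sh_apply] at hx
    exact Finsupp.mem_support_iff.2 hx
  · intro x hx
    rw [Finsupp.mem_support_iff, sh_apply]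
    have : x + c - c = x := by abel
    rw [this]
    exact Finsupp.mem_support_iff.1 hx
  · intro x _; abel
  · intro x _; abel
  · intro x _
    have : x - c + c = x := by abel
    rw [this]

lemma rt_sh (c : Site d) (η : Conf d) : rt g (sh c η) = rt g η := by
  unfold rt
  rw [sum_sh]
  refine Finset.sum_congr rfl fun x _ => ?_
  rw [sh_apply]
  have : x + c - c = x := by abel
  rw [this]

lemma rf_sh (c : Site d) (η : Conf d) (f : Conf d → ℝ≥0∞) :
    rf g i0 f (sh c η) = rf g i0 (fun η => f (sh c η)) η := by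
  unfold rf
  rw [sum_sh]
  refine Finset.sum_congr rfl fun x _ => ?_
  rw [sh_apply, sh_mv]
  have : x + c - c = x := by abel
  rw [this]

lemma PPn_sh (N : ℕ) (c : Site d) (f : Conf d → ℝ≥0∞) (k : ℕ) (η : Conf d) :
    PPn g i0 N f k (sh c η) = PPn g i0 N (fun η => f (sh c η)) k η := by
  induction k generalizing η with
  | zero => rfl
  | succ k ih =>
    show PP g i0 N (PPn g i0 N f k) (sh c η) = PP g i0 N (PPn g i0 N (fun η => f (sh c η)) k) η
    unfold PP
    have h1 : (fun η => PPn g i0 N f k (sh c η)) = PPn g i0 N (fun η => f (sh c η)) k := by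
      ext η; exact ih η
    rw [rt_sh, rf_sh, h1, ih]

lemma degree_sh (c : Site d) (η : Conf d) : (sh c η).degree = η.degree := by
  rw [Finsupp.degree_apply, Finsupp.degree_apply]
  refine Finset.sum_bij' (fun x _ => x - c) (fun x _ => x + c) ?_ ?_ ?_ ?_ ?_
  · intro x hx
    rw [Finsupp.mem_support_iff, sh_apply] at hx
    exact Finsupp.mem_support_iff.2 hx
  · intro x hx
    rw [Finsupp.mem_support_iff, sh_apply]
    have : x + c - c = x := by abel
    rw [this]
    exact Finsupp.mem_support_iff.1 hx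
  · intro x _; abel
  · intro x _; abel
  · intro x _
    rw [sh_apply]

/-- **Translation invariance.** -/
theorem translation (hg : Monotone g) (c : Site d) (η : Conf d) (f : Conf d → ℝ≥0∞)
    (hf1 : ∀ η, f η ≤ 1) {t : ℝ} (ht : 0 ≤ t) :
    pr (jump g (pp i0)) (goodJ_jump g _) (sh c η) t f ≤
      pr (jump g (pp i0)) (goodJ_jump g _) η t (fun η => f (sh c η)) := by
  set N := η.degree with hN
  have h1 : ∀ f : Conf d → ℝ≥0∞, (∀ η, f η ≤ 1) → ∀ k, ∀ η : Conf d, η.degree ≤ N →
      PPn g i0 N f k η ≤ 1 := by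
    intro f hf1 k
    induction k with
    | zero => intro η _; exact hf1 η
    | succ k ih => intro η hη; exact PP_le_one g i0 hg N _ η hη ih
  exact compare (jump g (pp i0)) (goodJ_jump g _) (sh c η) η (fun η => η.degree ≤ N)
    (degree_sh c η).le le_rfl (fun η hη => inv_degree g i0 N η hη) (Lam g N) (Lam_pos g N)
    (fun η hη => jump_univ_le g i0 hg N η hη) (PPn g i0 N f) (PPn g i0 N (fun η => f (sh c η)))
    (h1 f hf1) (h1 _ fun η => hf1 _)
    (fun k η hη => PP_spec g i0 hg N _ η hη) (fun k η hη => PP_spec g i0 hg N _ η hη)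
    (fun k => (PPn_sh g i0 N c f k η).le) ht

/-! ### Linear functionals of a configuration -/

/-- The weighted number of particles. -/
noncomputable def S (w : Site d → ℕ) (η : Conf d) : ℕ := η.sum fun x n => n * w x

lemma S_add (w : Site d → ℕ) (η ζ : Conf d) : S w (η + ζ) = S w η + S w ζ :=
  Finsupp.sum_add_index' (fun _ => by simp) (fun _ _ _ => by ring)

lemma S_single (w : Site d → ℕ) (x : Site d) (n : ℕ) : S w (Finsupp.single x n) = n * w x :=
  Finsupp.sum_single_index (by simp)

lemma S_mv (w : Site d → ℕ) (η : Conf d) (x : Site d) (hx : x ∈ η.support) :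
    S w (mv i0 η x) + w x = S w η + w (x + -ev i0) := by
  unfold mv move
  have h1 : Finsupp.single x 1 ≤ η := by
    rw [Finsupp.single_le_iff]
    exact Nat.one_le_iff_ne_zero.2 (Finsupp.mem_support_iff.1 hx)
  have h2 : S w η = S w (η - Finsupp.single x 1) + S w (Finsupp.single x 1) := by
    rw [← S_add, tsub_add_cancel_of_le h1]
  rw [S_add, h2, S_single, S_single]
  ring

lemma S_congr (w w' : Site d → ℕ) (η : Conf d) (h : ∀ x ∈ η.support, w x = w' x) :
    S w η = S w' η :=
  Finsupp.sum_congr fun x hx => by rw [h x hx]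

lemma S_add_weight (w w' : Site d → ℕ) (η : Conf d) :
    S (fun x => w x + w' x) η = S w η + S w' η := by
  unfold S
  rw [← Finsupp.sum_add]
  exact Finsupp.sum_congr fun x _ => by ring

open Classical in
lemma S_ind (y : Site d) (η : Conf d) : S (fun x => if x = y then 1 else 0) η = η y := by
  unfold S
  have : (η.sum fun x n => n * if x = y then 1 else 0) = η.sum fun x n => if x = y then n else 0 :=
    Finsupp.sum_congr fun x _ => by split_ifs <;> simp
  rw [this, Finsupp.sum]
  rw [Finset.sum_ite_eq']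
  split_ifs with h
  · rfl
  · rw [Finsupp.notMem_support_iff.1 h]

/-- The point `i e` on the axis. -/
def pt (i : ℤ) : Site d := i • ev i0

lemma pt_coord (i : ℤ) : pt i0 i i0 = i := by
  unfold pt ev
  simp

lemma pt_inj {i j : ℤ} (h : pt i0 i = pt i0 j) : i = j := by
  rw [← pt_coord i0 i, h, pt_coord]

lemma pt_sub (i : ℤ) : pt i0 i + -ev i0 = pt i0 (i - 1) := by
  unfold pt
  rw [sub_smul, one_smul, sub_eq_add_neg]

lemma ev_coord : (ev i0) i0 = 1 := by simp [ev]

/-- All particles are on the axis at positions `< L`. -/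
def Line (L : ℕ) (η : Conf d) : Prop := ∀ x ∈ η.support, ∃ i : ℤ, i < L ∧ x = pt i0 i

lemma mem_support_mv (η : Conf d) (x y : Site d) (hy : y ∈ (mv i0 η x).support) :
    y ∈ η.support ∨ y = x + -ev i0 := by
  classical
  by_contra hc
  push Not at hc
  rw [Finsupp.mem_support_iff] at hy
  apply hy
  unfold mv move
  have h1 : (Finsupp.single (x + -ev i0) 1 : Conf d) y = 0 := Finsupp.single_eq_of_ne hc.2
  simp only [Finsupp.coe_add, Finsupp.coe_tsub, Pi.add_apply, Pi.sub_apply, h1,
    Finsupp.notMem_support_iff.1 hc.1]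
  simp

lemma Line_mv (L : ℕ) (η : Conf d) (h : Line i0 L η) (x : Site d) (hx : x ∈ η.support) :
    Line i0 L (mv i0 η x) := by
  intro y hy
  rcases mem_support_mv i0 η x y hy with h1 | h1
  · exact h y h1
  · obtain ⟨i, hi, hxi⟩ := h x hx
    refine ⟨i - 1, by omega, ?_⟩
    rw [h1, hxi, pt_sub]

/-- number of particles at positions `≥ i`. -/
noncomputable def M (i : ℤ) (η : Conf d) : ℕ := S (fun x => if i ≤ x i0 then 1 else 0) η

lemma M_mv_le (i : ℤ) (η : Conf d) (x : Site d) (hx : x ∈ η.support) :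
    M i0 i (mv i0 η x) ≤ M i0 i η := by
  have h := S_mv i0 (fun x => if i ≤ x i0 then 1 else 0) η x hx
  unfold M
  have h1 : (x + -ev i0) i0 = x i0 - 1 := by
    rw [Pi.add_apply, Pi.neg_apply, ev_coord]; ring
  simp only [h1] at h
  split_ifs at h <;> omega

lemma M_mv_eq (i : ℤ) (η : Conf d) (x : Site d) (hx : x ∈ η.support) (hne : x i0 ≠ i) :
    M i0 i (mv i0 η x) = M i0 i η := by
  have h := S_mv i0 (fun x => if i ≤ x i0 then 1 else 0) η x hx
  unfold M
  have h1 : (x + -ev i0) i0 = x i0 - 1 := by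
    rw [Pi.add_apply, Pi.neg_apply, ev_coord]; ring
  simp only [h1] at h
  split_ifs at h <;> omega

lemma M_mv_add (i : ℤ) (η : Conf d) (x : Site d) (hx : x ∈ η.support) :
    M i0 i η ≤ M i0 i (mv i0 η x) + 1 := by
  have h := S_mv i0 (fun x => if i ≤ x i0 then 1 else 0) η x hx
  unfold M
  split_ifs at h <;> omega

lemma M_succ (L : ℕ) (i : ℤ) (η : Conf d) (h : Line i0 L η) :
    M i0 i η = M i0 (i + 1) η + η (pt i0 i) := by
  classical
  unfold M
  rw [← S_ind (pt i0 i) η, ← S_add_weight]
  refine S_congr _ _ η fun x hx => ?_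
  obtain ⟨j, _, hj⟩ := h x hx
  rw [hj, pt_coord]
  by_cases h1 : j = i
  · subst h1; simp
  · have h2 : pt i0 j ≠ pt i0 i := fun hc => h1 (pt_inj i0 hc)
    rw [if_neg h2]
    split_ifs <;> omega

lemma M_L (L : ℕ) (η : Conf d) (h : Line i0 L η) : M i0 L η = 0 := by
  unfold M
  rw [S_congr _ (fun _ => 0) η]
  · unfold S; simp
  · intro x hx
    obtain ⟨j, hj, hxj⟩ := h x hx
    rw [hxj, pt_coord, if_neg (by omega)]

lemma M_zero_eq (L n : ℕ) (η : Conf d) (h : Line i0 L η) :
    M i0 0 η = ∑ i ∈ Finset.range n, η (pt i0 i) + M i0 n η := by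
  induction n with
  | zero => simp
  | succ n ih =>
    rw [Finset.sum_range_succ, ih, M_succ i0 L n η h]
    push_cast
    ring

/-- potential: total number of jumps needed to leave the nonnegative half axis -/
noncomputable def V (η : Conf d) : ℕ := S (fun x => (x i0 + 1).toNat) η

open Classical in
lemma V_mv (η : Conf d) (x : Site d) (hx : x ∈ η.support) :
    V i0 (mv i0 η x) + (if 0 ≤ x i0 then 1 else 0) = V i0 η := by
  have h := S_mv i0 (fun x => (x i0 + 1).toNat) η x hx
  unfold V
  have h1 : (x + -ev i0) i0 = x i0 - 1 := by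
    rw [Pi.add_apply, Pi.neg_apply, ev_coord]; ring
  simp only [h1] at h
  split_ifs with h2 <;> omega

lemma V_le (L : ℕ) (η : Conf d) (h : Line i0 L η) : V i0 η ≤ η.degree * L := by
  unfold V S
  rw [Finsupp.degree_apply, Finset.sum_mul, Finsupp.sum]
  refine Finset.sum_le_sum fun x hx => ?_
  obtain ⟨j, hj, hxj⟩ := h x hx
  rw [hxj]
  show η (pt i0 j) * (pt i0 j i0 + 1).toNat ≤ η (pt i0 j) * L
  rw [pt_coord]
  gcongr
  omega

end Q288.ZRP
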