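import Mathlib
import Pool.Agent.Q288.ZRP.Pile

/-!
# Estimates for the process started from one pile
-/

set_option autoImplicit false
set_option linter.unusedSectionVars false

namespace Q288.ZRP

open MeasureTheory ProbabilityTheory Pool.Agent.W845.CP Filter Topology Set Q288.Jump
open scoped ENNReal

variable {d : ℕ} (g : ℕ → ℝ) (i0 : Fin d)

/-- expectation at time `t` for the process started from `ξ` -/
noncomputable abbrev Ex (ξ : Conf d) (t : ℝ) (f : Conf d → ℝ≥0∞) : ℝ≥0∞ :=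
  pr (jump g (pp i0)) (goodJ_jump g _) ξ t f

/-- The invariant of the process started from a pile of `N` particles at position `L - 1`. -/
def Inv (L N : ℕ) (η : Conf d) : Prop := Line i0 L η ∧ η.degree = N

lemma inv_step (L N : ℕ) (η : Conf d) (h : Inv i0 L N η) :
    ∀ᵐ z ∂(jump g (pp i0) η), Inv i0 L N z :=
  ae_jump g i0 _ η h fun x hx => ⟨Line_mv i0 L η h.1 x hx, by rw [degree_mv i0 η x hx]; exact h.2⟩

lemma inv_bdd (hg : Monotone g) (L N : ℕ) (η : Conf d) (h : Inv i0 L N η) :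
    jump g (pp i0) η Set.univ ≤ ENNReal.ofReal (Lam g N) :=
  jump_univ_le g i0 hg N η h.2.le

lemma reg (hg : Monotone g) (L N : ℕ) (ξ : Conf d) (h : Inv i0 L N ξ) :
    ∀ᵐ ω ∂(law (jump g (pp i0)) (goodJ_jump g _) ξ), Reg ω :=
  reg_of_bdd _ _ ξ (Inv i0 L N) h (fun η hη => inv_step g i0 L N η hη) (Lam g N) (Lam_pos g N)
    (fun η hη => inv_bdd g i0 hg L N η hη)

lemma Ex_mono (L N : ℕ) (ξ : Conf d) (h : Inv i0 L N ξ) (t : ℝ) (f f' : Conf d → ℝ≥0∞)
    (hf : ∀ η, Inv i0 L N η → f η ≤ f' η) : Ex g i0 ξ t f ≤ Ex g i0 ξ t f' :=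
  pr_mono _ _ ξ (Inv i0 L N) h (fun η hη => inv_step g i0 L N η hη) t f f' hf

/-- A general drift inequality. -/
theorem drift (hg : Monotone g) (L N : ℕ) (ξ : Conf d) (h : Inv i0 L N ξ)
    (f a b : Conf d → ℝ≥0∞) (C : ℝ≥0∞) (hC : C ≠ ⊤) (hfC : ∀ η, Inv i0 L N η → f η ≤ C)
    (hf : ∀ η, Inv i0 L N η → ∫⁻ z, f z ∂(jump g (pp i0) η) + a η ≤
      jump g (pp i0) η Set.univ * f η + b η) {t : ℝ} (ht : 0 ≤ t) :
    Ex g i0 ξ t f + ∫⁻ u in Ioc 0 t, Ex g i0 ξ u a ≤ f ξ + ∫⁻ u in Ioc 0 t, Ex g i0 ξ u b := by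
  have hreg := reg g i0 hg L N ξ h
  have h1 := forward (jump g (pp i0)) (goodJ_jump g _) ξ hreg ht f
  set B := ∫⁻ u in Ioc 0 t, pr (jump g (pp i0)) (goodJ_jump g _) ξ u
    (fun y => jump g (pp i0) y Set.univ * f y) with hB
  set D := ∫⁻ u in Ioc 0 t, pr (jump g (pp i0)) (goodJ_jump g _) ξ u
    (fun y => ∫⁻ z, f z ∂(jump g (pp i0) y)) with hD
  have h2 : D + ∫⁻ u in Ioc 0 t, Ex g i0 ξ u a ≤ B + ∫⁻ u in Ioc 0 t, Ex g i0 ξ u b := by
    rw [hB, hD, ← lintegral_add_left' (aemeas_pr _ _ ξ hreg _ t),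
      ← lintegral_add_left' (aemeas_pr _ _ ξ hreg _ t)]
    refine lintegral_mono fun u => ?_
    rw [← pr_add, ← pr_add]
    exact Ex_mono g i0 L N ξ h u _ _ hf
  have hBfin : B ≠ ⊤ := by
    have h3 : B ≤ ∫⁻ u in Ioc 0 t, ENNReal.ofReal (Lam g N) * C := by
      refine lintegral_mono fun u => ?_
      calc pr (jump g (pp i0)) (goodJ_jump g _) ξ u (fun y => jump g (pp i0) y Set.univ * f y) ≤
            pr (jump g (pp i0)) (goodJ_jump g _) ξ u (fun _ => ENNReal.ofReal (Lam g N) * C) := by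
            refine Ex_mono g i0 L N ξ h u _ _ fun y hy => ?_
            exact mul_le_mul' (inv_bdd g i0 hg L N y hy) (hfC y hy)
        _ = _ := pr_const _ _ ξ u _
    refine ne_top_of_le_ne_top ?_ h3
    rw [setLIntegral_const]
    exact ENNReal.mul_ne_top (ENNReal.mul_ne_top ENNReal.ofReal_ne_top hC) (by simp)
  have h4 : B + (Ex g i0 ξ t f + ∫⁻ u in Ioc 0 t, Ex g i0 ξ u a) ≤
      B + (f ξ + ∫⁻ u in Ioc 0 t, Ex g i0 ξ u b) := by
    calc _ = (pr (jump g (pp i0)) (goodJ_jump g _) ξ t f + B) +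
          ∫⁻ u in Ioc 0 t, Ex g i0 ξ u a := by ring
      _ = f ξ + (D + ∫⁻ u in Ioc 0 t, Ex g i0 ξ u a) := by rw [h1]; ring
      _ ≤ f ξ + (B + ∫⁻ u in Ioc 0 t, Ex g i0 ξ u b) := by gcongr
      _ = _ := by ring
  exact (ENNReal.add_le_add_iff_left hBfin).1 h4

/-- pile -/
noncomputable def pile (L N : ℕ) : Conf d := Finsupp.single (pt i0 ((L : ℤ) - 1)) N

lemma inv_pile (L N : ℕ) : Inv i0 L N (pile i0 L N) := by
  refine ⟨fun x hx => ⟨(L : ℤ) - 1, by omega, ?_⟩, ?_⟩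
  · have := Finsupp.support_single_subset hx
    simpa using this
  · unfold pile; exact Finsupp.degree_single _ _

open Classical in
/-- the excess event for level `K` -/
noncomputable def exc (K : ℕ) (η : Conf d) : ℝ≥0∞ :=
  if ∃ x ∈ η.support, 0 ≤ x i0 ∧ K < η x then 1 else 0

/-- **The excess disappears quickly.** -/
theorem exc_bound (hg : Monotone g) (L N K : ℕ) (hgK : 0 < g (K + 1)) {t : ℝ} (ht : 0 ≤ t) :
    ENNReal.ofReal (g (K + 1)) * ∫⁻ u in Ioc 0 t, Ex g i0 (pile i0 L N) u (exc i0 K) ≤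
      ((N * L : ℕ) : ℝ≥0∞) := by
  classical
  have h := drift g i0 hg L N (pile i0 L N) (inv_pile i0 L N) (fun η => (V i0 η : ℝ≥0∞))
    (fun η => ENNReal.ofReal (g (K + 1)) * exc i0 K η) (fun _ => 0) ((N * L : ℕ) : ℝ≥0∞)
    (ENNReal.natCast_ne_top _)
    (fun η hη => by
      have := V_le i0 L η hη.1
      rw [hη.2] at this
      exact_mod_cast this)
    (fun η hη => by
      rw [add_zero, jump_lint, jump_univ]
      have key : ∀ x ∈ η.support, ((V i0 (mv i0 η x) : ℕ) : ℝ≥0∞) +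
          (if 0 ≤ x i0 then 1 else 0) = (V i0 η : ℝ≥0∞) := by
        intro x hx
        have := V_mv i0 η x hx
        rw [← this]
        push_cast
        rfl
      have h1 : rf g i0 (fun η => (V i0 η : ℝ≥0∞)) η + ENNReal.ofReal (g (K + 1)) * exc i0 K η ≤
          rt g η * (V i0 η : ℝ≥0∞) := by
        have h2 : rt g η * (V i0 η : ℝ≥0∞) = rf g i0 (fun η => (V i0 η : ℝ≥0∞)) η +
            ∑ x ∈ η.support, ENNReal.ofReal (g (η x)) * (if 0 ≤ x i0 then 1 else 0) := by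
          unfold rf rt
          rw [Finset.sum_mul, ← Finset.sum_add_distrib]
          refine Finset.sum_congr rfl fun x hx => ?_
          rw [← key x hx, mul_add]
        rw [h2]
        gcongr
        unfold exc
        split_ifs with h3
        · obtain ⟨x, hx, hx0, hxK⟩ := h3
          rw [mul_one]
          calc ENNReal.ofReal (g (K + 1)) ≤ ENNReal.ofReal (g (η x)) * (if 0 ≤ x i0 then 1 else 0) := by
                rw [if_pos hx0, mul_one]
                exact ENNReal.ofReal_le_ofReal (hg hxK)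
            _ ≤ _ := Finset.single_le_sum
                (f := fun x => ENNReal.ofReal (g (η x)) * (if 0 ≤ x i0 then (1 : ℝ≥0∞) else 0))
                (fun _ _ => zero_le) hx
        · rw [mul_zero]; exact zero_le
      by_cases h0 : rt g η = 0
      · rw [if_pos h0, if_pos h0, one_mul]
        rw [h0, zero_mul, rf_zero g i0 _ η h0, zero_add] at h1
        calc (V i0 η : ℝ≥0∞) + ENNReal.ofReal (g (K + 1)) * exc i0 K η ≤ (V i0 η : ℝ≥0∞) + 0 := by
              gcongr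
          _ = _ := add_zero _
      · rw [if_neg h0, if_neg h0]; exact h1) ht
  have h5 : ∀ u, Ex g i0 (pile i0 L N) u (fun _ => 0) = 0 := fun u => pr_const _ _ _ u 0
  simp only [h5, lintegral_const, zero_mul, add_zero] at h
  have h6 : (V i0 (pile i0 L N) : ℝ≥0∞) ≤ ((N * L : ℕ) : ℝ≥0∞) := by
    have := V_le i0 L _ (inv_pile i0 L N).1
    rw [(inv_pile i0 L N).2] at this
    exact_mod_cast this
  calc _ = ∫⁻ u in Ioc 0 t, Ex g i0 (pile i0 L N) u
        (fun η => ENNReal.ofReal (g (K + 1)) * exc i0 K η) := by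
        rw [← lintegral_const_mul' _ _ ENNReal.ofReal_ne_top]
        refine lintegral_congr fun u => ?_
        exact (pr_const_mul _ _ _ u _ _).symm
    _ ≤ _ := (le_add_left le_rfl).trans (h.trans h6)

end Q288.ZRP
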