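import Mathlib
import Pool.Agent.Q288.ZRP.Est

/-!
# Few particles leave the region
-/

set_option autoImplicit false
set_option linter.unusedSectionVars false

namespace Q288.ZRP

open MeasureTheory ProbabilityTheory Pool.Agent.W845.CP Filter Topology Set Q288.Jump
open scoped ENNReal

variable {d : ℕ} (g : ℕ → ℝ) (i0 : Fin d)

/-- The mass at positions `≥ i` is at most the capacity minus `k`. -/
def AA (L K i k : ℕ) (η : Conf d) : Prop := M i0 (i : ℤ) η + k ≤ K * (L - i)

open Classical in
noncomputable def indA (L K i k : ℕ) (η : Conf d) : ℝ≥0∞ := if AA i0 L K i k η then 1 else 0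

lemma M_pile (L N i : ℕ) (hi : i < L) : M i0 (i : ℤ) (pile i0 L N) = N := by
  unfold M pile
  rw [S_single, pt_coord, if_pos (by omega), mul_one]

open Classical in
theorem recursion (hg : Monotone g) (L K i k : ℕ) (hi : i < L) {t : ℝ} (ht : 0 ≤ t) :
    Ex g i0 (pile i0 L (K * L)) t (indA i0 L K i (k + 1)) ≤
      Ex g i0 (pile i0 L (K * L)) t (indA i0 L K (i + 1) (k + 1)) +
      ENNReal.ofReal (g K) * ∫⁻ u in Ioc 0 t,
        Ex g i0 (pile i0 L (K * L)) u (indA i0 L K i k) := by
  set ξ := pile i0 L (K * L) with hξ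
  set f : Conf d → ℝ≥0∞ := fun η =>
    if AA i0 L K i (k + 1) η ∧ ¬ AA i0 L K (i + 1) (k + 1) η then 1 else 0 with hf
  have hf1 : ∀ η, f η ≤ 1 := by
    intro η; simp only [hf]; split_ifs <;> simp
  have h := drift g i0 hg L (K * L) ξ (inv_pile i0 L (K * L)) f (fun _ => 0)
    (fun η => ENNReal.ofReal (g K) * indA i0 L K i k η) 1 ENNReal.one_ne_top
    (fun η _ => hf1 η)
    (fun η hη => by
      rw [add_zero, jump_lint, jump_univ]
      by_cases h0 : rt g η = 0
      · rw [if_pos h0, if_pos h0, one_mul]; exact le_self_add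
      rw [if_neg h0, if_neg h0]
      by_cases hfη : AA i0 L K i (k + 1) η ∧ ¬ AA i0 L K (i + 1) (k + 1) η
      · have e1 : f η = 1 := by simp only [hf]; rw [if_pos hfη]
        rw [e1, mul_one]
        refine le_trans ?_ le_self_add
        unfold rf rt
        refine Finset.sum_le_sum fun x _ => ?_
        calc _ ≤ ENNReal.ofReal (g (η x)) * 1 := by gcongr; exact hf1 _
          _ = _ := mul_one _
      have e1 : f η = 0 := by simp only [hf]; rw [if_neg hfη]
      rw [e1, mul_zero, zero_add]
      -- analyse the jumps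
      have key : ∀ x ∈ η.support, f (mv i0 η x) ≠ 0 →
          x = pt i0 i ∧ AA i0 L K i k η ∧ η x ≤ K := by
        intro x hx hne
        have h1 : AA i0 L K i (k + 1) (mv i0 η x) ∧ ¬ AA i0 L K (i + 1) (k + 1) (mv i0 η x) := by
          by_contra hc
          apply hne
          simp only [hf]
          rw [if_neg hc]
        unfold AA at h1 hfη
        have h2 := M_mv_le i0 ((i + 1 : ℕ) : ℤ) η x hx
        have h3 := M_mv_add i0 (i : ℤ) η x hx
        have h4 : ¬ (M i0 ((i + 1 : ℕ) : ℤ) η + (k + 1) ≤ K * (L - (i + 1))) := by omega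
        have h5 : ¬ (M i0 (i : ℤ) η + (k + 1) ≤ K * (L - i)) := fun hc => hfη ⟨hc, h4⟩
        have h6 : x i0 = i := by
          by_contra hc
          rw [M_mv_eq i0 (i : ℤ) η x hx hc] at h1
          exact h5 h1.1
        obtain ⟨j, _, hj⟩ := hη.1 x hx
        have h7 : x = pt i0 i := by
          rw [hj, pt_coord] at h6
          rw [hj, h6]
        have h8 := M_succ i0 L (i : ℤ) η hη.1
        have h9 : ((i : ℤ) + 1) = ((i + 1 : ℕ) : ℤ) := by push_cast; ring
        rw [h9] at h8
        refine ⟨h7, ?_, ?_⟩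
        · unfold AA; omega
        · rw [h7]
          have h10 : K * (L - i) = K * (L - (i + 1)) + K := by
            have : L - i = (L - (i + 1)) + 1 := by omega
            rw [this, mul_add, mul_one]
          omega
      by_cases hex : ∃ x ∈ η.support, f (mv i0 η x) ≠ 0
      · obtain ⟨x, hx, hne⟩ := hex
        obtain ⟨h1, h2, h3⟩ := key x hx hne
        unfold rf
        rw [Finset.sum_eq_single_of_mem x hx]
        · unfold indA
          rw [if_pos h2, mul_one]
          calc _ ≤ ENNReal.ofReal (g K) * 1 := by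
                gcongr
                · exact hg h3
                · exact hf1 _
            _ = _ := mul_one _
        · intro y hy hyx
          by_contra hc
          have hne' : f (mv i0 η y) ≠ 0 := fun h0 => hc (by rw [h0, mul_zero])
          exact hyx ((key y hy hne').1.trans h1.symm)
      · push Not at hex
        unfold rf
        rw [Finset.sum_eq_zero fun x hx => by rw [hex x hx, mul_zero]]
        exact zero_le) ht
  have e0 : f ξ = 0 := by
    simp only [hf]
    rw [if_neg]
    rintro ⟨h1, -⟩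
    unfold AA at h1
    rw [hξ, M_pile i0 L (K * L) i hi] at h1
    have : K * (L - i) ≤ K * L := Nat.mul_le_mul le_rfl (Nat.sub_le _ _)
    omega
  rw [e0, zero_add] at h
  have h5 : ∀ u, Ex g i0 ξ u (fun _ => 0) = 0 := fun u => pr_const _ _ _ u 0
  simp only [h5, lintegral_const, zero_mul, add_zero] at h
  have h6 : ∫⁻ u in Ioc 0 t, Ex g i0 ξ u (fun η => ENNReal.ofReal (g K) * indA i0 L K i k η) =
      ENNReal.ofReal (g K) * ∫⁻ u in Ioc 0 t, Ex g i0 ξ u (indA i0 L K i k) := by
    rw [← lintegral_const_mul' _ _ ENNReal.ofReal_ne_top]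
    exact lintegral_congr fun u => pr_const_mul _ _ _ u _ _
  rw [h6] at h
  calc Ex g i0 ξ t (indA i0 L K i (k + 1)) ≤
        Ex g i0 ξ t (fun η => f η + indA i0 L K (i + 1) (k + 1) η) := by
        refine Ex_mono g i0 L (K * L) ξ (inv_pile i0 L (K * L)) t _ _ fun η _ => ?_
        simp only [hf]
        unfold indA
        split_ifs with h1 h2 h3 <;> simp_all
    _ = Ex g i0 ξ t f + Ex g i0 ξ t (indA i0 L K (i + 1) (k + 1)) := pr_add _ _ _ t _ _
    _ ≤ _ := by rw [add_comm]; gcongr

lemma lint_pow (c γ : ℝ) (hc : 0 ≤ c) (hγ : 0 ≤ γ) (k : ℕ) {t : ℝ} (ht : 0 ≤ t) :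
    ∫⁻ u in Ioc 0 t, ENNReal.ofReal (c * (γ * u) ^ k / k.factorial) =
      ENNReal.ofReal (c * γ ^ k * t ^ (k + 1) / (k + 1).factorial) := by
  rw [← ofReal_integral_eq_lintegral_ofReal]
  · rw [← intervalIntegral.integral_of_le ht]
    congr 1
    have h1 : ∀ u : ℝ, c * (γ * u) ^ k / k.factorial = (c * γ ^ k / k.factorial) * u ^ k := by
      intro u; rw [mul_pow]; ring
    simp only [h1]
    rw [intervalIntegral.integral_const_mul, integral_pow, Nat.factorial_succ]
    push_cast
    have h8 : (k.factorial : ℝ) ≠ 0 := by positivity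
    have h9 : (k : ℝ) + 1 ≠ 0 := by positivity
    field_simp
    simp
  · exact ((by fun_prop : Continuous fun u : ℝ => c * (γ * u) ^ k / k.factorial).integrableOn_Icc).mono_set
      Ioc_subset_Icc_self
  · rw [Filter.EventuallyLE, ae_restrict_iff' measurableSet_Ioc]
    refine Filter.Eventually.of_forall fun u hu => ?_
    have := hu.1.le
    simp only [Pi.zero_apply]
    positivity

theorem rec_bound (hg : Monotone g) (L K : ℕ) (hgK : 0 ≤ g K) (k : ℕ) :
    ∀ m, m ≤ L → ∀ t : ℝ, 0 ≤ t →
    Ex g i0 (pile i0 L (K * L)) t (indA i0 L K (L - m) k) ≤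
      ENNReal.ofReal (Nat.multichoose m k * (g K * t) ^ k / k.factorial) := by
  have hinv := inv_pile i0 L (K * L)
  induction k with
  | zero =>
    intro m _ t ht
    simp only [Nat.multichoose_zero_right, pow_zero, Nat.factorial_zero]
    calc _ ≤ Ex g i0 (pile i0 L (K * L)) t (fun _ => 1) := by
          refine Ex_mono g i0 L _ _ hinv t _ _ fun η _ => ?_
          unfold indA; split_ifs <;> simp
      _ = 1 := pr_const _ _ _ t 1
      _ = _ := by simp
  | succ k ihk =>
    intro m
    induction m with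
    | zero =>
      intro _ t ht
      calc _ ≤ Ex g i0 (pile i0 L (K * L)) t (fun _ => 0) := by
            refine Ex_mono g i0 L _ _ hinv t _ _ fun η _ => ?_
            unfold indA AA
            rw [if_neg]
            simp
        _ = 0 := pr_const _ _ _ t 0
        _ ≤ _ := zero_le
    | succ m ihm =>
      intro hm t ht
      have h1 := recursion g i0 hg L K (L - (m + 1)) k (by omega) ht
      have e1 : L - (m + 1) + 1 = L - m := by omega
      rw [e1] at h1
      have h2 := ihm (by omega) t ht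
      have h3 : ∫⁻ u in Ioc 0 t, Ex g i0 (pile i0 L (K * L)) u (indA i0 L K (L - (m + 1)) k) ≤
          ENNReal.ofReal (Nat.multichoose (m + 1) k * (g K) ^ k * t ^ (k + 1) /
            (k + 1).factorial) := by
        rw [← lint_pow _ _ (Nat.cast_nonneg _) hgK k ht]
        refine setLIntegral_mono' measurableSet_Ioc fun u hu => ?_
        exact ihk (m + 1) hm u hu.1.le
      refine h1.trans ?_
      calc _ ≤ ENNReal.ofReal (Nat.multichoose m (k + 1) * (g K * t) ^ (k + 1) /
            (k + 1).factorial) + ENNReal.ofReal (g K) *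
            ENNReal.ofReal (Nat.multichoose (m + 1) k * (g K) ^ k * t ^ (k + 1) /
            (k + 1).factorial) := by gcongr
        _ = _ := by
            rw [← ENNReal.ofReal_mul hgK, ← ENNReal.ofReal_add (by positivity) (by positivity),
              Nat.multichoose_succ_succ]
            congr 1
            push_cast
            rw [mul_pow]
            ring

open Classical in
/-- a hole at position `i` -/
noncomputable def hole (K : ℕ) (i : ℤ) (η : Conf d) : ℝ≥0∞ := if η (pt i0 i) < K then 1 else 0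

lemma holes_le (L K k : ℕ) (η : Conf d) (hη : Inv i0 L (K * L) η) :
    ∑ i ∈ Finset.range L, hole i0 K i η ≤
      (k : ℝ≥0∞) + ((L : ℝ≥0∞) * exc i0 K η + (L : ℝ≥0∞) * indA i0 L K 0 k η) := by
  classical
  have hle : ∑ i ∈ Finset.range L, hole i0 K i η ≤ (L : ℝ≥0∞) := by
    calc _ ≤ ∑ i ∈ Finset.range L, (1 : ℝ≥0∞) := by
          refine Finset.sum_le_sum fun i _ => ?_
          unfold hole; split_ifs <;> simp
      _ = _ := by simp
  by_cases h1 : ∃ x ∈ η.support, 0 ≤ x i0 ∧ K < η x
  · have : exc i0 K η = 1 := by unfold exc; rw [if_pos h1]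
    rw [this, mul_one]
    exact hle.trans ((le_self_add).trans (le_add_left le_rfl))
  by_cases h2 : AA i0 L K 0 k η
  · have : indA i0 L K 0 k η = 1 := by unfold indA; rw [if_pos h2]
    rw [this, mul_one]
    exact hle.trans ((le_add_left le_rfl).trans (le_add_left le_rfl))
  refine le_trans ?_ le_self_add
  have hK : ∀ i ∈ Finset.range L, η (pt i0 i) ≤ K := by
    intro i _
    by_contra hc
    apply h1
    refine ⟨pt i0 i, Finsupp.mem_support_iff.2 (by omega), by rw [pt_coord]; omega, by omega⟩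
  have h3 := M_zero_eq i0 L L η hη.1
  rw [M_L i0 L η hη.1, add_zero] at h3
  have h4 : ∑ i ∈ Finset.range L, (K - η (pt i0 i)) + ∑ i ∈ Finset.range L, η (pt i0 i) = K * L := by
    rw [← Finset.sum_add_distrib]
    rw [Finset.sum_congr rfl fun i hi => Nat.sub_add_cancel (hK i hi)]
    simp [mul_comm]
  have h5 : ∑ i ∈ Finset.range L, (K - η (pt i0 i)) ≤ k := by
    unfold AA at h2
    simp only [Nat.cast_zero, Nat.sub_zero, not_le] at h2
    omega
  calc ∑ i ∈ Finset.range L, hole i0 K i η ≤ ∑ i ∈ Finset.range L, ((K - η (pt i0 i) : ℕ) : ℝ≥0∞) := by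
        refine Finset.sum_le_sum fun i _ => ?_
        unfold hole
        split_ifs with h6
        · have : 1 ≤ K - η (pt i0 i) := by omega
          exact_mod_cast this
        · exact zero_le
    _ = ((∑ i ∈ Finset.range L, (K - η (pt i0 i)) : ℕ) : ℝ≥0∞) := by push_cast; rfl
    _ ≤ k := by exact_mod_cast h5

/-- The total expected occupation time of holes. -/
theorem holes_time (hg : Monotone g) (L K k : ℕ) (hgK : 0 ≤ g K) (hG : 0 < g (K + 1))
    {t : ℝ} (ht : 0 ≤ t) :
    ∑ i ∈ Finset.range L, ∫⁻ u in Ioc 0 t, Ex g i0 (pile i0 L (K * L)) u (hole i0 K i) ≤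
      ENNReal.ofReal (k * t + (L * (K * L * L)) / g (K + 1) +
        L * (t * (Nat.multichoose L k * (g K * t) ^ k / k.factorial))) := by
  set ξ := pile i0 L (K * L) with hξ
  have hinv := inv_pile i0 L (K * L)
  have hreg := reg g i0 hg L (K * L) ξ hinv
  have h1 : ∑ i ∈ Finset.range L, ∫⁻ u in Ioc 0 t, Ex g i0 ξ u (hole i0 K i) =
      ∫⁻ u in Ioc 0 t, Ex g i0 ξ u (fun η => ∑ i ∈ Finset.range L, hole i0 K i η) := by
    rw [← lintegral_finsetSum' _ (fun (i : ℕ) _ =>
      aemeas_pr (jump g (pp i0)) (goodJ_jump g _) ξ hreg (hole i0 K (i : ℤ)) t)]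
    refine lintegral_congr fun u => ?_
    show ∑ i ∈ Finset.range L, pr (jump g (pp i0)) (goodJ_jump g _) ξ u (hole i0 K i) =
      pr (jump g (pp i0)) (goodJ_jump g _) ξ u (fun η => ∑ i ∈ Finset.range L, hole i0 K i η)
    unfold pr
    have hm0 : Measurable fun ω : ℕ → Conf d × ℝ => stateAt ω u := measurable_stateAt u
    rw [lintegral_finsetSum]
    intro i _
    exact (measurable_of_countable (hole i0 K (i : ℤ))).comp hm0
  rw [h1]
  have h2 : ∫⁻ u in Ioc 0 t, Ex g i0 ξ u (fun η => ∑ i ∈ Finset.range L, hole i0 K i η) ≤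
      ∫⁻ u in Ioc 0 t, ((k : ℝ≥0∞) + ((L : ℝ≥0∞) * Ex g i0 ξ u (exc i0 K) +
        (L : ℝ≥0∞) * Ex g i0 ξ u (indA i0 L K 0 k))) := by
    refine lintegral_mono fun u => ?_
    calc _ ≤ Ex g i0 ξ u (fun η => (k : ℝ≥0∞) + ((L : ℝ≥0∞) * exc i0 K η +
            (L : ℝ≥0∞) * indA i0 L K 0 k η)) :=
          Ex_mono g i0 L _ ξ hinv u _ _ fun η hη => holes_le i0 L K k η hη
      _ = _ := by
          show pr _ _ _ _ _ = _
          rw [pr_add, pr_const, pr_add, pr_const_mul, pr_const_mul]
  refine h2.trans ?_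
  have hm1 := aemeas_pr (jump g (pp i0)) (goodJ_jump g _) ξ hreg (exc i0 K) t
  rw [lintegral_add_left measurable_const, lintegral_add_left' (hm1.const_mul _),
    lintegral_const_mul' _ _ (ENNReal.natCast_ne_top _),
    lintegral_const_mul' _ _ (ENNReal.natCast_ne_top _)]
  have b1 : ∫⁻ _ in Ioc (0 : ℝ) t, (k : ℝ≥0∞) = ENNReal.ofReal (k * t) := by
    rw [setLIntegral_const, Real.volume_Ioc, sub_zero, ENNReal.ofReal_mul (Nat.cast_nonneg _),
      ENNReal.ofReal_natCast]
  have b2 : (L : ℝ≥0∞) * ∫⁻ u in Ioc 0 t, Ex g i0 ξ u (exc i0 K) ≤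
      ENNReal.ofReal ((L * (K * L * L)) / g (K + 1)) := by
    have h3 := exc_bound g i0 hg L (K * L) K hG ht
    have h4 : ∫⁻ u in Ioc 0 t, Ex g i0 ξ u (exc i0 K) ≤
        ENNReal.ofReal ((K * L * L) / g (K + 1)) := by
      rw [ENNReal.ofReal_div_of_pos hG]
      rw [ENNReal.le_div_iff_mul_le (Or.inl (by simpa using hG)) (Or.inl ENNReal.ofReal_ne_top),
        mul_comm]
      refine h3.trans (le_of_eq ?_)
      rw [← ENNReal.ofReal_natCast]
      push_cast
      rfl
    calc _ ≤ (L : ℝ≥0∞) * ENNReal.ofReal ((K * L * L) / g (K + 1)) := by gcongr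
      _ = _ := by
          rw [← ENNReal.ofReal_natCast, ← ENNReal.ofReal_mul (Nat.cast_nonneg _)]
          congr 1; ring
  have b3 : (L : ℝ≥0∞) * ∫⁻ u in Ioc 0 t, Ex g i0 ξ u (indA i0 L K 0 k) ≤
      ENNReal.ofReal (L * (t * (Nat.multichoose L k * (g K * t) ^ k / k.factorial))) := by
    have h3 : ∫⁻ u in Ioc 0 t, Ex g i0 ξ u (indA i0 L K 0 k) ≤
        ∫⁻ u in Ioc 0 t, ENNReal.ofReal (Nat.multichoose L k * (g K * t) ^ k / k.factorial) := by
      refine setLIntegral_mono' measurableSet_Ioc fun u hu => ?_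
      have h4 := rec_bound g i0 hg L K hgK k L le_rfl u hu.1.le
      rw [Nat.sub_self] at h4
      refine h4.trans (ENNReal.ofReal_le_ofReal ?_)
      have h5 : g K * u ≤ g K * t := by
        have := hu.2; nlinarith
      have h6 : 0 ≤ g K * u := mul_nonneg hgK hu.1.le
      gcongr
    rw [setLIntegral_const, Real.volume_Ioc, sub_zero] at h3
    calc _ ≤ (L : ℝ≥0∞) * (ENNReal.ofReal (Nat.multichoose L k * (g K * t) ^ k / k.factorial) *
          ENNReal.ofReal t) := by gcongr
      _ = _ := by
          have hp : 0 ≤ (Nat.multichoose L k * (g K * t) ^ k / k.factorial : ℝ) := by positivity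
          rw [← ENNReal.ofReal_natCast, ← ENNReal.ofReal_mul hp,
            ← ENNReal.ofReal_mul (Nat.cast_nonneg _)]
          congr 1; ring
  rw [b1]
  calc _ ≤ ENNReal.ofReal (k * t) + (ENNReal.ofReal ((L * (K * L * L)) / g (K + 1)) +
        ENNReal.ofReal (L * (t * (Nat.multichoose L k * (g K * t) ^ k / k.factorial)))) := by
        gcongr
    _ = _ := by
        have hp1 : (0 : ℝ) ≤ (L * (K * L * L)) / g (K + 1) := by positivity
        have hp2 : (0 : ℝ) ≤ L * (t * (Nat.multichoose L k * (g K * t) ^ k / k.factorial)) := by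
          positivity
        have hp3 : (0 : ℝ) ≤ k * t := by positivity
        rw [← ENNReal.ofReal_add hp1 hp2, ← ENNReal.ofReal_add hp3 (by positivity)]
        congr 1; ring

end Q288.ZRP
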