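import Mathlib
import Pool.Agent.Q288.ZRP.Rec

/-!
# One stage of the construction
-/

set_option autoImplicit false
set_option linter.unusedSectionVars false

namespace Q288.ZRP

open MeasureTheory ProbabilityTheory Pool.Agent.W845.CP Filter Topology Set Q288.Jump
open scoped ENNReal

variable {d : ℕ} (i0 : Fin d)

open Classical in
/-- the indicator that the origin holds fewer than `K` particles -/
noncomputable def low (K : ℕ) (η : Conf d) : ℝ≥0∞ := if η 0 < K then 1 else 0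

lemma sh_pile (L N : ℕ) (i : ℤ) :
    sh (pt i0 (-i)) (pile i0 L N) = Finsupp.single (pt i0 ((L : ℤ) - 1 - i)) N := by
  classical
  ext x
  rw [sh_apply]
  unfold pile
  rw [Finsupp.single_apply, Finsupp.single_apply]
  have h : (pt i0 ((L : ℤ) - 1) = x - pt i0 (-i)) ↔ (pt i0 ((L : ℤ) - 1 - i) = x) := by
    unfold pt
    constructor
    · intro h
      have : x = ((L : ℤ) - 1) • ev i0 + (-i) • ev i0 := by rw [h]; abel
      rw [this, ← add_smul]; congr 1
    · intro h
      rw [← h, ← sub_smul]; congr 1; ring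
  simp only [h]

lemma multichoose_le (L k : ℕ) : Nat.multichoose L k ≤ 2 ^ (L + k) := by
  rw [Nat.multichoose_eq]
  exact (Nat.choose_le_two_pow _ _).trans (Nat.pow_le_pow_right (by norm_num) (Nat.sub_le _ _))

/-- **One stage.** -/
theorem stage (K : ℕ) (γ t ε : ℝ) (hγ : 0 ≤ γ) (ht : 0 < t) (hε : 0 < ε) (m : ℕ) :
    ∃ (H : ℕ) (G₀ : ℝ), 0 < H ∧ m ≤ H ∧ 0 < G₀ ∧ ∀ g : ℕ → ℝ, Monotone g → g K = γ →
      G₀ ≤ g (K + 1) → ∃ D : ℕ, H ≤ D ∧ D < 2 * H ∧
        ∫⁻ u in Ioc 0 t, Ex g i0 (Finsupp.single (pt i0 (D : ℤ)) (K * (2 * H))) u (low K) ≤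
          ENNReal.ofReal ε := by
  obtain ⟨j, hj⟩ := exists_nat_gt (3 * t / ε)
  have hj0 : 0 < (j : ℝ) := lt_of_le_of_lt (by positivity) hj
  have hj1 : 0 < j := by exact_mod_cast hj0
  -- the exits are rare
  have hlim : Tendsto (fun k : ℕ => (2 ^ (2 * j + 1) * (γ * t)) ^ k / (k.factorial : ℝ)) atTop
      (𝓝 0) := FloorSemiring.tendsto_pow_div_factorial_atTop _
  have hev : ∀ᶠ k : ℕ in atTop, (2 ^ (2 * j + 1) * (γ * t)) ^ k / (k.factorial : ℝ) <
      ε / (6 * t) := hlim.eventually_lt_const (by positivity)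
  obtain ⟨k, hk1, hk2⟩ := (hev.and (eventually_ge_atTop (m + 1))).exists
  set H := j * k with hH
  have hk0 : 0 < k := by omega
  have hHpos : 0 < H := Nat.mul_pos hj1 hk0
  have hHR : (0 : ℝ) < H := by exact_mod_cast hHpos
  refine ⟨H, 24 * (K + 1) * H ^ 2 / ε, hHpos, ?_, by positivity, ?_⟩
  · calc m ≤ k := by omega
      _ ≤ j * k := Nat.le_mul_of_pos_left k hj1
  intro g hg hgK hG
  have hG0 : 0 < g (K + 1) := lt_of_lt_of_le (by positivity) hG
  have h1 := holes_time g i0 hg (2 * H) K k (by rw [hgK]; exact hγ) hG0 ht.le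
  rw [hgK] at h1
  -- the total is at most `H * ε`
  have htot : (k : ℝ) * t + (((2 * H : ℕ) : ℝ) * (K * ((2 * H : ℕ) : ℝ) * ((2 * H : ℕ) : ℝ))) /
      g (K + 1) + ((2 * H : ℕ) : ℝ) * (t * (Nat.multichoose (2 * H) k * (γ * t) ^ k / k.factorial)) ≤
      H * ε := by
    have a1 : (k : ℝ) * t ≤ H * (ε / 3) := by
      rw [div_lt_iff₀ hε] at hj
      have hkR : (0 : ℝ) < k := by exact_mod_cast hk0
      have : (H : ℝ) = j * k := by rw [hH]; push_cast; ring
      rw [this]
      nlinarith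
    have a2 : (((2 * H : ℕ) : ℝ) * (K * ((2 * H : ℕ) : ℝ) * ((2 * H : ℕ) : ℝ))) / g (K + 1) ≤
        H * (ε / 3) := by
      rw [div_le_iff₀ hG0]
      push_cast
      have h2 : 24 * ((K : ℝ) + 1) * H ^ 2 ≤ g (K + 1) * ε := by
        rwa [div_le_iff₀ hε] at hG
      have h3 : (2 * (H : ℝ)) * (K * (2 * H) * (2 * H)) = H * (8 * K * H ^ 2) := by ring
      have h4 : (H : ℝ) * (ε / 3) * g (K + 1) = H * (g (K + 1) * ε / 3) := by ring
      rw [h3, h4]
      refine mul_le_mul_of_nonneg_left ?_ hHR.le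
      have : (0 : ℝ) ≤ H ^ 2 := by positivity
      nlinarith
    have a3 : ((2 * H : ℕ) : ℝ) * (t * (Nat.multichoose (2 * H) k * (γ * t) ^ k / k.factorial)) ≤
        H * (ε / 3) := by
      have h2 : (Nat.multichoose (2 * H) k : ℝ) * (γ * t) ^ k / k.factorial ≤ ε / (6 * t) := by
        refine le_trans ?_ hk1.le
        have h3 : (Nat.multichoose (2 * H) k : ℝ) ≤ (2 ^ (2 * j + 1)) ^ k := by
          have := multichoose_le (2 * H) k
          calc (Nat.multichoose (2 * H) k : ℝ) ≤ ((2 ^ (2 * H + k) : ℕ) : ℝ) := by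
                exact_mod_cast this
            _ = _ := by
                push_cast
                rw [← pow_mul, hH]
                congr 1; ring
        rw [mul_pow (2 ^ (2 * j + 1) : ℝ)]
        gcongr
      push_cast
      calc 2 * (H : ℝ) * (t * (Nat.multichoose (2 * H) k * (γ * t) ^ k / k.factorial)) ≤
            2 * (H : ℝ) * (t * (ε / (6 * t))) := by gcongr
        _ = H * (ε / 3) := by field_simp; ring
    nlinarith
  have h2 : ∑ i ∈ Finset.range (2 * H), ∫⁻ u in Ioc 0 t,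
      Ex g i0 (pile i0 (2 * H) (K * (2 * H))) u (hole i0 K i) ≤ ENNReal.ofReal (H * ε) :=
    h1.trans (ENNReal.ofReal_le_ofReal htot)
  -- pigeonhole
  have h3 : ∃ i ∈ Finset.range H, ∫⁻ u in Ioc 0 t,
      Ex g i0 (pile i0 (2 * H) (K * (2 * H))) u (hole i0 K i) ≤ ENNReal.ofReal ε := by
    by_contra hc
    push Not at hc
    have h4 : ENNReal.ofReal (H * ε) < ∑ i ∈ Finset.range H, ∫⁻ u in Ioc 0 t,
        Ex g i0 (pile i0 (2 * H) (K * (2 * H))) u (hole i0 K i) := by
      have h5 : ENNReal.ofReal (H * ε) = ∑ i ∈ Finset.range H, ENNReal.ofReal ε := by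
        rw [Finset.sum_const, Finset.card_range, nsmul_eq_mul,
          ENNReal.ofReal_mul (Nat.cast_nonneg _), ENNReal.ofReal_natCast]
      rw [h5]
      exact ENNReal.sum_lt_sum_of_nonempty ⟨0, Finset.mem_range.2 hHpos⟩ hc
    have h6 : ∑ i ∈ Finset.range H, ∫⁻ u in Ioc 0 t,
        Ex g i0 (pile i0 (2 * H) (K * (2 * H))) u (hole i0 K i) ≤
        ∑ i ∈ Finset.range (2 * H), ∫⁻ u in Ioc 0 t,
        Ex g i0 (pile i0 (2 * H) (K * (2 * H))) u (hole i0 K i) :=
      Finset.sum_le_sum_of_subset (Finset.range_subset_range.2 (by omega))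
    exact absurd (h4.trans_le (h6.trans h2)) (lt_irrefl _)
  obtain ⟨i, hi, hle⟩ := h3
  rw [Finset.mem_range] at hi
  refine ⟨2 * H - 1 - i, by omega, by omega, ?_⟩
  refine le_trans ?_ hle
  refine setLIntegral_mono' measurableSet_Ioc fun u hu => ?_
  have h4 := translation g i0 hg (pt i0 (-(i : ℤ))) (pile i0 (2 * H) (K * (2 * H))) (low K)
    (fun η => by unfold low; split_ifs <;> simp) hu.1.le
  rw [sh_pile] at h4
  have e1 : ((2 * H - 1 - i : ℕ) : ℤ) = ((2 * H : ℕ) : ℤ) - 1 - (i : ℤ) := by omega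
  rw [e1]
  refine h4.trans (le_of_eq ?_)
  have e2 : (fun η : Conf d => low K (sh (pt i0 (-(i : ℤ))) η)) = hole i0 K i := by
    ext η
    unfold low hole
    rw [sh_apply]
    have : (0 : Site d) - pt i0 (-(i : ℤ)) = pt i0 i := by
      unfold pt; simp
    rw [this]
  rw [e2]

end Q288.ZRP
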