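import Mathlib
import Pool.Agent.Q288.ZRP.Stage

/-!
# The explosive configuration
-/

set_option autoImplicit false
set_option linter.unusedSectionVars false

namespace Q288.ZRP

open MeasureTheory ProbabilityTheory Pool.Agent.W845.CP Filter Topology Set Q288.Jump
open scoped ENNReal

variable {d : ℕ} (i0 : Fin d)

/-- What stage `n` provides. -/
def Good (n : ℕ) (γ : ℝ) (m : ℕ) (p : ℕ × ℝ) : Prop :=
  0 < p.1 ∧ m ≤ p.1 ∧ 0 < p.2 ∧ ∀ g : ℕ → ℝ, Monotone g → g (n + 1) = γ →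
      p.2 ≤ g (n + 1 + 1) → ∃ D : ℕ, p.1 ≤ D ∧ D < 2 * p.1 ∧
        ∫⁻ u in Ioc 0 ((n : ℝ) + 1), Ex g i0
          (Finsupp.single (pt i0 (D : ℤ)) ((n + 1) * (2 * p.1))) u (low (n + 1)) ≤
          ENNReal.ofReal ((1 / 2) ^ n)

lemma exists_good (n : ℕ) (γ : ℝ) (m : ℕ) : ∃ p : ℕ × ℝ, 0 ≤ γ → Good i0 n γ m p := by
  by_cases hγ : 0 ≤ γ
  · obtain ⟨H, G₀, h1, h2, h3, h4⟩ := stage i0 (n + 1) γ ((n : ℝ) + 1) ((1 / 2) ^ n) hγ
      (by positivity) (by positivity) m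
    exact ⟨(H, G₀), fun _ => ⟨h1, h2, h3, h4⟩⟩
  · exact ⟨(0, 0), fun h => absurd h hγ⟩

/-- the choice of the parameters of stage `n` -/
noncomputable def pf (n : ℕ) (γ : ℝ) (m : ℕ) : ℕ × ℝ := (exists_good i0 n γ m).choose

lemma pf_spec (n : ℕ) (γ : ℝ) (m : ℕ) (hγ : 0 ≤ γ) : Good i0 n γ m (pf i0 n γ m) :=
  (exists_good i0 n γ m).choose_spec hγ

/-- The state of the construction: the rate `g (n + 1)` and the mass of the earlier piles. -/
noncomputable def st : ℕ → ℝ × ℕ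
  | 0 => (1, 0)
  | (n + 1) =>
    (max ((st n).1 + 1) (pf i0 n (st n).1 (4 * (st n).2 + 4 * (n + 2))).2,
      (st n).2 + (n + 1) * (2 * (pf i0 n (st n).1 (4 * (st n).2 + 4 * (n + 2))).1))

noncomputable def HH (n : ℕ) : ℕ := (pf i0 n (st i0 n).1 (4 * (st i0 n).2 + 4 * (n + 2))).1

/-- size of the `n`-th pile -/
noncomputable def NN (n : ℕ) : ℕ := (n + 1) * (2 * HH i0 n)

noncomputable def TT (n : ℕ) : ℕ := (st i0 n).2

/-- The rate function. -/
noncomputable def gg : ℕ → ℝ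
  | 0 => 0
  | (n + 1) => (st i0 n).1

lemma TT_succ (n : ℕ) : TT i0 (n + 1) = TT i0 n + NN i0 n := rfl

lemma TT_eq (n : ℕ) : TT i0 n = ∑ k ∈ Finset.range n, NN i0 k := by
  induction n with
  | zero => rfl
  | succ n ih => rw [TT_succ, Finset.sum_range_succ, ih]

lemma gg_step (n : ℕ) : gg i0 (n + 1) + 1 ≤ gg i0 (n + 1 + 1) := le_max_left _ _

lemma gg_ge (n : ℕ) : (n : ℝ) ≤ gg i0 n := by
  induction n with
  | zero => simp [gg]
  | succ n ih =>
    cases n with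
    | zero => simp [gg, st]
    | succ n =>
      have := gg_step i0 n
      push_cast at ih ⊢
      linarith

lemma gg_mono : Monotone (gg i0) := by
  refine monotone_nat_of_le_succ fun n => ?_
  cases n with
  | zero =>
    have := gg_ge i0 1
    simp only [gg] at this ⊢
    simp [st]
  | succ n => linarith [gg_step i0 n]

lemma gg_tendsto : Tendsto (gg i0) atTop atTop :=
  tendsto_atTop_mono (gg_ge i0) tendsto_natCast_atTop_atTop

lemma good_n (n : ℕ) : Good i0 n (gg i0 (n + 1)) (4 * TT i0 n + 4 * (n + 2))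
    (pf i0 n (gg i0 (n + 1)) (4 * TT i0 n + 4 * (n + 2))) :=
  pf_spec i0 n _ _ ((Nat.cast_nonneg _).trans (gg_ge i0 (n + 1)))

lemma HH_ge (n : ℕ) : 4 * TT i0 n + 4 * (n + 2) ≤ HH i0 n := (good_n i0 n).2.1

lemma exists_D (n : ℕ) : ∃ D : ℕ, HH i0 n ≤ D ∧ D < 2 * HH i0 n ∧
    ∫⁻ u in Ioc 0 ((n : ℝ) + 1), Ex (gg i0) i0
      (Finsupp.single (pt i0 (D : ℤ)) (NN i0 n)) u (low (n + 1)) ≤ ENNReal.ofReal ((1 / 2) ^ n) :=
  (good_n i0 n).2.2.2 (gg i0) (gg_mono i0) rfl (le_max_right _ _)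

/-- position of the `n`-th pile -/
noncomputable def DD (n : ℕ) : ℕ := (exists_D i0 n).choose

lemma DD_spec (n : ℕ) : HH i0 n ≤ DD i0 n ∧ DD i0 n < 2 * HH i0 n ∧
    ∫⁻ u in Ioc 0 ((n : ℝ) + 1), Ex (gg i0) i0
      (Finsupp.single (pt i0 (DD i0 n : ℤ)) (NN i0 n)) u (low (n + 1)) ≤
      ENNReal.ofReal ((1 / 2) ^ n) := (exists_D i0 n).choose_spec

lemma DD_strictMono : StrictMono (DD i0) := by
  refine strictMono_nat_of_lt_succ fun n => ?_
  have h1 := DD_spec i0 n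
  have h2 := DD_spec i0 (n + 1)
  have h3 := HH_ge i0 (n + 1)
  have h4 := TT_succ i0 n
  have h5 : 2 * HH i0 n ≤ NN i0 n := Nat.le_mul_of_pos_left _ (Nat.succ_pos n)
  omega

lemma TT_le (n : ℕ) : TT i0 (n + 1) ≤ (DD i0 n) ^ 2 := by
  have h1 := (DD_spec i0 n).1
  have h2 := HH_ge i0 n
  have h3 := TT_succ i0 n
  have h4 : NN i0 n = (n + 1) * (2 * HH i0 n) := rfl
  have h5 : TT i0 n + NN i0 n ≤ HH i0 n ^ 2 := by
    rw [h4]
    nlinarith
  rw [h3]
  exact h5.trans (Nat.pow_le_pow_left h1 2)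

open Classical in
/-- The initial configuration: `NN n` particles at the point `(DD n) e`. -/
noncomputable def eta (x : Site d) : ℕ :=
  if h : ∃ n, x = pt i0 (DD i0 n : ℤ) then NN i0 h.choose else 0

lemma pt_DD_inj {n m : ℕ} (h : pt i0 (DD i0 n : ℤ) = pt i0 (DD i0 m : ℤ)) : n = m := by
  have h1 := pt_inj i0 h
  exact (DD_strictMono i0).injective (by exact_mod_cast h1)

lemma eta_pt (n : ℕ) : eta i0 (pt i0 (DD i0 n : ℤ)) = NN i0 n := by
  have h : ∃ m, pt i0 (DD i0 n : ℤ) = pt i0 (DD i0 m : ℤ) := ⟨n, rfl⟩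
  unfold eta
  rw [dif_pos h, ← pt_DD_inj i0 h.choose_spec]

lemma eta_ne_zero (x : Site d) (h : eta i0 x ≠ 0) : ∃ n, x = pt i0 (DD i0 n : ℤ) := by
  by_contra hc
  apply h
  unfold eta
  rw [dif_neg hc]

lemma mem_box (m : ℕ) (x : Site d) : x ∈ box d m ↔ ∀ i, -(m : ℤ) ≤ x i ∧ x i ≤ m := by
  unfold box
  rw [Fintype.mem_piFinset]
  simp

lemma pt_mem_box (m n : ℕ) : pt i0 (n : ℤ) ∈ box d m ↔ n ≤ m := by
  rw [mem_box]
  constructor
  · intro h
    have := (h i0).2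
    rw [pt_coord] at this
    exact_mod_cast this
  · intro h i
    unfold pt ev
    by_cases hi : i = i0
    · subst hi; simp; omega
    · simp [hi]

lemma sum_eta (m : ℕ) : ∑ x ∈ box d m, eta i0 x ≤ m ^ 2 := by
  classical
  have h1 : ∑ x ∈ box d m, eta i0 x ≤ ∑ x ∈ (((Finset.range (m + 1)).filter
      (fun n => DD i0 n ≤ m)).image (fun n => pt i0 (DD i0 n : ℤ))), eta i0 x := by
    refine Finset.sum_le_sum_of_ne_zero fun x hx hne => ?_
    obtain ⟨n, rfl⟩ := eta_ne_zero i0 x hne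
    have h2 := (pt_mem_box i0 m (DD i0 n)).1 hx
    have h3 := (DD_strictMono i0).le_apply (x := n)
    exact Finset.mem_image.2 ⟨n, Finset.mem_filter.2 ⟨Finset.mem_range.2 (by omega), h2⟩, rfl⟩
  refine h1.trans ?_
  rw [Finset.sum_image (fun a _ b _ h => pt_DD_inj i0 h)]
  simp only [eta_pt]
  rw [Finset.sum_filter]
  have h2 : ∀ N, ∑ n ∈ Finset.range N, (if DD i0 n ≤ m then NN i0 n else 0) ≤ m ^ 2 := by
    intro N
    induction N with
    | zero => simp
    | succ N ih =>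
      by_cases h3 : DD i0 N ≤ m
      · calc _ ≤ ∑ n ∈ Finset.range (N + 1), NN i0 n := by
              refine Finset.sum_le_sum fun n _ => ?_
              split_ifs <;> simp
          _ = TT i0 (N + 1) := (TT_eq i0 (N + 1)).symm
          _ ≤ (DD i0 N) ^ 2 := TT_le i0 N
          _ ≤ m ^ 2 := Nat.pow_le_pow_left h3 2
      · rw [Finset.sum_range_succ, if_neg h3, add_zero]; exact ih
  exact h2 _

theorem finiteDensity (hd : 2 ≤ d) : FiniteDensity (eta i0) := by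
  unfold FiniteDensity
  refine lt_of_le_of_lt (b := 1) ?_ ENNReal.one_lt_top
  refine limsup_le_of_le (by isBoundedDefault) (Filter.Eventually.of_forall fun n => ?_)
  have h1 : ((2 * (n : ℝ≥0∞) + 1) ^ d) = (((2 * n + 1) ^ d : ℕ) : ℝ≥0∞) := by push_cast; rfl
  rw [h1]
  refine ENNReal.div_le_of_le_mul ?_
  rw [one_mul]
  have h2 : ∑ x ∈ box d n, eta i0 x ≤ (2 * n + 1) ^ d := by
    calc _ ≤ n ^ 2 := sum_eta i0 n
      _ ≤ (2 * n + 1) ^ 2 := Nat.pow_le_pow_left (by omega) 2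
      _ ≤ (2 * n + 1) ^ d := Nat.pow_le_pow_right (by omega) hd
  exact_mod_cast h2

lemma single_le_restr (m n : ℕ) (h : DD i0 n ≤ m) :
    (Finsupp.single (pt i0 (DD i0 n : ℤ)) (NN i0 n) : Conf d) ≤ restr (eta i0) m := by
  rw [Finsupp.single_le_iff]
  unfold restr
  rw [Finsupp.onFinset_apply, if_pos ((pt_mem_box i0 m _).2 h), eta_pt]

/-- The error at stage `n`. -/
noncomputable def err (n : ℕ) (t : ℝ) : ℝ≥0∞ :=
  Ex (gg i0) i0 (Finsupp.single (pt i0 (DD i0 n : ℤ)) (NN i0 n)) t (low (n + 1))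

lemma reg_single (ξ : Conf d) :
    ∀ᵐ ω ∂(law (jump (gg i0) (pp i0)) (goodJ_jump _ _) ξ), Reg ω :=
  reg_of_bdd _ _ ξ (fun η => η.degree ≤ ξ.degree) le_rfl
    (fun η hη => inv_degree (gg i0) i0 _ η hη) (Lam (gg i0) ξ.degree) (Lam_pos _ _)
    (fun η hη => jump_univ_le (gg i0) i0 (gg_mono i0) _ η hη)

theorem err_tendsto : ∀ᵐ t : ℝ, 0 < t → Tendsto (fun n => err i0 n t) atTop (𝓝 0) := by
  classical
  set F : ℕ → ℝ → ℝ≥0∞ := fun n => (Ioc 0 ((n : ℝ) + 1)).indicator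
    (prm (jump (gg i0) (pp i0)) (goodJ_jump _ _)
      (Finsupp.single (pt i0 (DD i0 n : ℤ)) (NN i0 n)) (low (n + 1))) with hF
  have hmeas : ∀ n, Measurable (F n) := fun n =>
    (measurable_prm _ _ _ _).indicator measurableSet_Ioc
  have hint : ∀ n, ∫⁻ t, F n t ≤ ENNReal.ofReal ((1 / 2) ^ n) := by
    intro n
    simp only [hF]
    rw [lintegral_indicator measurableSet_Ioc]
    refine le_trans (le_of_eq ?_) (DD_spec i0 n).2.2
    exact setLIntegral_congr_fun measurableSet_Ioc fun u hu =>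
      prm_eq _ _ _ (reg_single i0 _) _ hu.1.le
  have hsum : ∫⁻ t, ∑' n, F n t ≠ ⊤ := by
    rw [lintegral_tsum fun n => (hmeas n).aemeasurable]
    have h1 : ∑' n, ∫⁻ t, F n t ≤ ∑' n : ℕ, ENNReal.ofReal ((1 / 2) ^ n) :=
      ENNReal.tsum_le_tsum hint
    refine ne_top_of_le_ne_top ?_ h1
    rw [← ENNReal.ofReal_tsum_of_nonneg (fun n => by positivity)
      (summable_geometric_of_lt_one (by norm_num) (by norm_num))]
    exact ENNReal.ofReal_ne_top
  have hae := ae_lt_top (Measurable.ennreal_tsum hmeas) hsum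
  filter_upwards [hae] with t ht htpos
  have h1 := ENNReal.tendsto_atTop_zero_of_tsum_ne_top ht.ne
  refine h1.congr' ?_
  obtain ⟨N, hN⟩ := exists_nat_gt t
  filter_upwards [eventually_ge_atTop N] with n hn
  have h2 : t ∈ Ioc 0 ((n : ℝ) + 1) := by
    refine ⟨htpos, ?_⟩
    have : (N : ℝ) ≤ n := by exact_mod_cast hn
    linarith
  simp only [hF]
  rw [Set.indicator_of_mem h2]
  exact prm_eq _ _ _ (reg_single i0 _) _ htpos.le

/-- The probability that the origin holds fewer than `m` particles tends to zero. -/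
theorem low_tendsto : ∀ᵐ t : ℝ, 0 < t → ∀ m : ℕ,
    Tendsto (fun n => Ex (gg i0) i0 (restr (eta i0) n) t (low m)) atTop (𝓝 0) := by
  filter_upwards [err_tendsto i0] with t ht htpos m
  rw [ENNReal.tendsto_nhds_zero]
  intro ε hε
  have h1 := ENNReal.tendsto_nhds_zero.1 (ht htpos) ε hε
  obtain ⟨n, hn1, hn2⟩ := (h1.and (eventually_ge_atTop m)).exists
  filter_upwards [eventually_ge_atTop (DD i0 n)] with M hM
  refine le_trans ?_ hn1
  have h2 := attractive (gg i0) i0 (gg_mono i0) rfl (low (n + 1))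
    (fun η => by unfold low; split_ifs <;> simp)
    (fun ξ ζ h => by
      unfold low
      have := h 0
      split_ifs <;> simp <;> omega) _ _ (single_le_restr i0 M n hM) htpos.le
  refine le_trans ?_ h2
  refine pr_mono _ _ _ (fun _ => True) trivial (fun _ _ => Filter.Eventually.of_forall fun _ =>
    trivial) t _ _ fun η _ => ?_
  unfold low
  split_ifs <;> simp <;> omega

lemma low_meas (m : ℕ) (ξ : Conf d) (t : ℝ) :
    Ex (gg i0) i0 ξ t (low m) = zrpLaw (gg i0) (pp i0) ξ {ω | stateAt ω t 0 < m} := by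
  classical
  have hm : MeasurableSet {ω : ℕ → Conf d × ℝ | stateAt ω t 0 < m} :=
    (measurable_stateAt t) (MeasurableSpace.measurableSet_top (s := {η : Conf d | η 0 < m}))
  show pr _ _ _ _ _ = _
  unfold pr zrpLaw
  rw [← lintegral_indicator_one hm]
  refine lintegral_congr fun ω => ?_
  unfold low
  simp only [Set.indicator, Set.mem_ofPred_eq, Pi.one_apply]

theorem law_explosion : ∀ᵐ t : ℝ, 0 < t → ∀ m : ℕ,
    Tendsto (fun n => zrpLaw (gg i0) (pp i0) (restr (eta i0) n) {ω | m ≤ stateAt ω t 0})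
      atTop (𝓝 1) := by
  filter_upwards [low_tendsto i0] with t ht htpos m
  have h1 := ht htpos m
  have h2 : ∀ n, zrpLaw (gg i0) (pp i0) (restr (eta i0) n) {ω | m ≤ stateAt ω t 0} =
      1 - Ex (gg i0) i0 (restr (eta i0) n) t (low m) := by
    intro n
    have hm : MeasurableSet {ω : ℕ → Conf d × ℝ | stateAt ω t 0 < m} :=
      (measurable_stateAt t) (MeasurableSpace.measurableSet_top (s := {η : Conf d | η 0 < m}))
    have e : {ω : ℕ → Conf d × ℝ | m ≤ stateAt ω t 0} =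
        {ω : ℕ → Conf d × ℝ | stateAt ω t 0 < m}ᶜ := by
      ext ω; simp
    haveI : IsProbabilityMeasure (zrpLaw (gg i0) (pp i0) (restr (eta i0) n)) := by
      unfold zrpLaw; infer_instance
    rw [low_meas, e, prob_compl_eq_one_sub hm]
  simp only [h2]
  have h3 := ENNReal.Tendsto.sub (tendsto_const_nhds (x := (1 : ℝ≥0∞))) h1
    (Or.inl ENNReal.one_ne_top)
  simpa using h3

theorem coupling_explosion : ∀ᵐ t : ℝ, 0 < t → ∀ (Ω : Type) [MeasurableSpace Ω] (P : Measure Ω)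
    (Y : ℕ → Ω → ℕ → Conf d × ℝ), MonotoneCoupling (gg i0) (pp i0) (eta i0) P Y →
    ∀ᵐ w ∂P, limitAt (fun n => Y n w) t 0 = ⊤ := by
  filter_upwards [low_tendsto i0] with t ht htpos Ω _ P Y hY
  have h1 : ∀ m : ℕ, ∀ᵐ w ∂P, ∃ n, m ≤ stateAt (Y n w) t 0 := by
    intro m
    rw [ae_iff]
    have h2 : ∀ n, P {w | ¬ ∃ n, m ≤ stateAt (Y n w) t 0} ≤
        Ex (gg i0) i0 (restr (eta i0) n) t (low m) := by
      intro n
      have hm : MeasurableSet {ω : ℕ → Conf d × ℝ | stateAt ω t 0 < m} :=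
        (measurable_stateAt t) (MeasurableSpace.measurableSet_top (s := {η : Conf d | η 0 < m}))
      rw [low_meas, ← hY.law_eq n, Measure.map_apply (hY.meas n) hm]
      refine measure_mono fun w hw => ?_
      simp only [Set.mem_ofPred_eq, not_exists, not_le] at hw
      exact hw n
    exact le_antisymm (ge_of_tendsto' (ht htpos m) h2) zero_le
  rw [← ae_all_iff] at h1
  filter_upwards [h1] with w hw
  unfold limitAt
  rw [iSup_eq_top]
  intro b hb
  obtain ⟨m, rfl⟩ := ENat.ne_top_iff_exists.1 hb.ne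
  obtain ⟨n, hn⟩ := hw (m + 1)
  exact ⟨n, by exact_mod_cast hn⟩

end Q288.ZRP
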